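import Pool.Agent.Q94.FRB.Graph

/-! The sixteen cell graph on 3009314 vertices and six eigenvectors of it. -/

set_option autoImplicit false

open Finset

namespace Pool.Agent.Q94.FRB

/-- Sizes of the cells. -/
def sz : Fin 16 → ℕ :=
  ![1, 1, 648, 648, 648, 648, 233280, 233280, 537840, 537840, 38880, 38880, 155520, 155520,
    537840, 537840]

/-- Degrees: a vertex of cell `c` has `dg c d` neighbours in cell `d`. -/
def dg : Fin 16 → Fin 16 → ℕ :=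
  ![![0, 0, 648, 648, 0, 0, 0, 0, 0, 0, 0, 0, 0, 0, 0, 0],
    ![0, 0, 0, 0, 648, 648, 0, 0, 0, 0, 0, 0, 0, 0, 0, 0],
    ![1, 0, 0, 37, 15, 0, 360, 0, 830, 0, 60, 0, 0, 0, 0, 0],
    ![1, 0, 37, 0, 0, 15, 0, 360, 0, 830, 0, 60, 0, 0, 0, 0],
    ![0, 1, 15, 0, 0, 7, 0, 0, 0, 0, 60, 0, 240, 0, 830, 0],
    ![0, 1, 0, 15, 7, 0, 0, 0, 0, 0, 0, 60, 0, 240, 0, 830],
    ![0, 0, 1, 0, 0, 0, 0, 88, 0, 0, 1, 0, 2, 0, 0, 0],
    ![0, 0, 0, 1, 0, 0, 88, 0, 0, 0, 0, 1, 0, 2, 0, 0],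
    ![0, 0, 1, 0, 0, 0, 0, 0, 0, 89, 0, 0, 0, 0, 3, 0],
    ![0, 0, 0, 1, 0, 0, 0, 0, 89, 0, 0, 0, 0, 0, 0, 3],
    ![0, 0, 1, 0, 1, 0, 6, 0, 0, 0, 0, 86, 0, 0, 0, 0],
    ![0, 0, 0, 1, 0, 1, 0, 6, 0, 0, 86, 0, 0, 0, 0, 0],
    ![0, 0, 0, 0, 1, 0, 3, 0, 0, 0, 0, 0, 0, 83, 0, 0],
    ![0, 0, 0, 0, 0, 1, 0, 3, 0, 0, 0, 0, 83, 0, 0, 0],
    ![0, 0, 0, 0, 1, 0, 0, 0, 3, 0, 0, 0, 0, 0, 0, 83],
    ![0, 0, 0, 0, 0, 1, 0, 0, 0, 3, 0, 0, 0, 0, 83, 0]]

theorem dg_diag : ∀ c, dg c c = 0 := by decide +kernel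

theorem dg_le : ∀ c d, dg c d ≤ sz d := by decide +kernel

theorem dg_sym : ∀ c d, sz c * dg c d = sz d * dg d c := by decide +kernel

/-- rational parts of the eigenvectors -/
def cA : Fin 3 → Fin 16 → ℤ :=
  ![![1080, -1080, 30, 30, -100, -100, 3, 3, 3, 3, -4, -4, -7, -7, -7, -7],
    ![15768, -15768, 438, 438, -292, -292, -9, -9, -9, -9, -4, -4, 5, 5, 5, 5],
    ![13896, -13896, 386, 386, 772, 772, 29, 29, 29, 29, 36, 36, 7, 7, 7, 7]]

/-- irrational parts of the eigenvectors -/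
def cB : Fin 3 → Fin 16 → ℤ :=
  ![![0, 1080, -35, -35, 65, 65, -2, -2, -2, -2, 3, 3, 5, 5, 5, 5],
    ![0, 15768, 73, 73, 365, 365, -2, -2, -2, -2, -9, -9, -7, -7, -7, -7],
    ![0, 13896, 579, 579, -193, -193, 18, 18, 18, 18, 29, 29, 11, 11, 11, 11]]

/-- the irrational parts of the eigenvalues -/
def vv : Fin 3 → ℤ := ![-42, 6, 54]

theorem eqA : ∀ i c, ∑ d, (dg c d : ℤ) * cA i d = 36 * cA i c + 2 * vv i * cB i c := by
  decide +kernel

theorem eqB : ∀ i c, ∑ d, (dg c d : ℤ) * cB i d = 36 * cB i c + vv i * cA i c := by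
  decide +kernel

/-- the eigenvectors as functions of the cell -/
def ww {R : Type} [CommRing R] (σ : R) (i : Fin 3) (c : Fin 16) : R :=
  (cA i c : R) + (cB i c : R) * σ

/-- the graph -/
abbrev G0 : SimpleGraph (VV sz) := gr sz dg

theorem eig {R : Type} [CommRing R] (σ : R) (hσ : σ ^ 2 = 2) (i : Fin 3) :
    (G0.adjMatrix R).mulVec (fun v => ww σ i v.1) =
      (36 + (vv i : R) * σ) • fun v : VV sz => ww σ i v.1 := by
  rw [mulVec_cell sz dg dg_diag dg_le dg_sym (ww σ i)]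
  funext v
  simp only [Pi.smul_apply, smul_eq_mul]
  generalize v.1 = c
  have h1 : ∑ d, (dg c d : R) * ww σ i d =
      ((∑ d, (dg c d : ℤ) * cA i d : ℤ) : R) + ((∑ d, (dg c d : ℤ) * cB i d : ℤ) : R) * σ := by
    push_cast
    rw [Finset.sum_mul, ← Finset.sum_add_distrib]
    refine Finset.sum_congr rfl fun d _ => ?_
    unfold ww
    ring
  rw [h1, eqA, eqB]
  unfold ww
  push_cast
  linear_combination (-(vv i : R) * (cB i c : R)) * hσ

/-- rational parts of the coefficients -/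
def pA : Fin 3 → ℚ := ![75 / 256 / 1080, 21 / 128 / 15768, 11 / 256 / 13896]

/-- irrational parts of the coefficients -/
def pB : Fin 3 → ℚ := ![105 / 512 / 1080, 15 / 256 / 15768, -(7 / 512 / 13896)]

theorem comA : ∀ c, ∑ i, (pA i * cA i c + 2 * pB i * cB i c) = if c = 0 then 1 / 2 else 0 := by
  decide +kernel

theorem comB : ∀ c, ∑ i, (pA i * cB i c + pB i * cA i c) =
    if c = 0 then 1 / 4 else if c = 1 then 1 / 4 else 0 := by
  decide +kernel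

/-- the coefficients -/
def cf {R : Type} [Field R] [CharZero R] (σ : R) (i : Fin 3) : R := (pA i : R) + (pB i : R) * σ

theorem comb {R : Type} [Field R] [CharZero R] (σ : R) (hσ : σ ^ 2 = 2) (c : Fin 16) :
    ∑ i, cf σ i * ww σ i c =
      (if c = 0 then 1 / 2 + σ / 4 else if c = 1 then σ / 4 else 0) := by
  have h1 : ∑ i, cf σ i * ww σ i c =
      ((∑ i, (pA i * cA i c + 2 * pB i * cB i c) : ℚ) : R) +
        ((∑ i, (pA i * cB i c + pB i * cA i c) : ℚ) : R) * σ := by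
    push_cast
    rw [Finset.sum_mul, ← Finset.sum_add_distrib]
    refine Finset.sum_congr rfl fun i _ => ?_
    unfold ww cf
    linear_combination ((pB i : R) * (cB i c : R)) * hσ
  rw [h1, comA, comB]
  by_cases h : c = 0
  · simp [h]; ring
  · by_cases h' : c = 1
    · subst h'; simp; ring
    · simp [h, h']

end Pool.Agent.Q94.FRB
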