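import Mathlib

/-! Cospectral vertices and balanced fractional revival. -/

set_option autoImplicit false

namespace Pool.Agent.Q94.FRB

/-- The orthogonal projection `E_θ` onto the `θ`-eigenspace of the adjacency matrix of `X`, as an
operator on Euclidean space (it is zero when `θ` is not an eigenvalue). -/
noncomputable def specProj {V : Type} [Fintype V] [DecidableEq V] (X : SimpleGraph V)
    [DecidableRel X.Adj] (θ : ℝ) : EuclideanSpace ℝ V →L[ℝ] EuclideanSpace ℝ V :=
  (Module.End.eigenspace (Matrix.toEuclideanLin (X.adjMatrix ℝ)) θ).starProjection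

/-- Cospectral vertices: `(E_θ)_{aa} = (E_θ)_{bb}` for every spectral idempotent `E_θ` of the
adjacency matrix. -/
def Cospectral {V : Type} [Fintype V] [DecidableEq V] (X : SimpleGraph V)
    [DecidableRel X.Adj] (a b : V) : Prop :=
  ∀ θ : ℝ, specProj X θ (EuclideanSpace.single a 1) a = specProj X θ (EuclideanSpace.single b 1) b

/-- Balanced fractional revival from `a` to `b` at time `τ`. -/
def BalancedFR {V : Type} [Fintype V] [DecidableEq V] (X : SimpleGraph V)
    [DecidableRel X.Adj] (a b : V) (τ : ℝ) : Prop :=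
  ∃ α β : ℂ, ‖α‖ = 1 / √2 ∧ ‖β‖ = 1 / √2 ∧
    (NormedSpace.exp ((Complex.I * (τ : ℂ)) • X.adjMatrix ℂ)).mulVec (Pi.single a 1) =
      α • Pi.single a 1 + β • Pi.single b 1

end Pool.Agent.Q94.FRB
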