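import Mathlib

/-! Graphs with a prescribed equitable partition all of whose cells are independent sets. -/

set_option autoImplicit false

open Finset

namespace Pool.Agent.Q94.FRB

/-- A biregular relation between `Fin m` and `Fin n`: row `x` is related to the residues of
the `p` consecutive numbers starting at `p * x`. -/
def rel (m n p : ℕ) (x : Fin m) (y : Fin n) : Prop := ∃ t : Fin p, (t.1 + p * x.1) % n = y.1

instance (m n p : ℕ) (x : Fin m) (y : Fin n) : Decidable (rel m n p x y) := by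
  unfold rel; infer_instance

theorem rel_ind {m n p : ℕ} (h : p ≤ n) (x : Fin m) (y : Fin n) :
    (if rel m n p x y then (1 : ℕ) else 0) =
      ∑ t : Fin p, if (t.1 + p * x.1) % n = y.1 then 1 else 0 := by
  by_cases hr : rel m n p x y
  · rw [if_pos hr]
    obtain ⟨t0, ht0⟩ := hr
    rw [Finset.sum_eq_single t0]
    · rw [if_pos ht0]
    · intro t _ ht
      rw [if_neg]
      intro h1
      apply ht
      ext
      have h2 : (t.1 + p * x.1) ≡ (t0.1 + p * x.1) [MOD n] := h1.trans ht0.symm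
      have h3 := Nat.ModEq.add_right_cancel' _ h2
      exact Nat.ModEq.eq_of_lt_of_lt h3 (by omega) (by omega)
    · simp
  · rw [if_neg hr, Finset.sum_eq_zero]
    intro t _
    rw [if_neg]
    intro h1
    exact hr ⟨t, h1⟩

theorem rel_row {m n p : ℕ} (h : p ≤ n) (x : Fin m) :
    ∑ y : Fin n, (if rel m n p x y then (1 : ℕ) else 0) = p := by
  rw [Finset.sum_congr rfl (fun y _ => rel_ind h x y), Finset.sum_comm]
  have : ∀ t : Fin p, (∑ y : Fin n, if (t.1 + p * x.1) % n = y.1 then (1 : ℕ) else 0) = 1 := by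
    intro t
    have hn : 0 < n := by have := t.2; omega
    rw [Finset.sum_eq_single (⟨(t.1 + p * x.1) % n, Nat.mod_lt _ hn⟩ : Fin n)]
    · simp
    · intro y _ hy
      rw [if_neg]
      intro h1
      exact hy (Fin.ext h1.symm)
    · simp
  rw [Finset.sum_congr rfl (fun t _ => this t)]
  simp

theorem sum_prod_fin (m p : ℕ) (f : ℕ → ℕ) :
    ∑ x : Fin m, ∑ t : Fin p, f (t.1 + p * x.1) = ∑ k ∈ range (m * p), f k := by
  rw [← Fintype.sum_prod_type', ← Fin.sum_univ_eq_sum_range]
  exact Fintype.sum_equiv finProdFinEquiv _ _ (fun z => rfl)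

theorem rel_col {m n p q : ℕ} (h : p ≤ n) (hq : m * p = n * q) (y : Fin n) :
    ∑ x : Fin m, (if rel m n p x y then (1 : ℕ) else 0) = q := by
  rw [Finset.sum_congr rfl (fun x _ => rel_ind h x y)]
  rw [sum_prod_fin m p (fun k => if k % n = y.1 then 1 else 0), hq, mul_comm n q,
    ← sum_prod_fin q n (fun k => if k % n = y.1 then 1 else 0)]
  have : ∀ x : Fin q, (∑ t : Fin n, if (t.1 + n * x.1) % n = y.1 then (1 : ℕ) else 0) = 1 := by
    intro x
    rw [Finset.sum_eq_single y]
    · rw [if_pos]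
      rw [Nat.add_mul_mod_self_left, Nat.mod_eq_of_lt y.2]
    · intro t _ ht
      rw [if_neg]
      rw [Nat.add_mul_mod_self_left, Nat.mod_eq_of_lt t.2]
      intro h1
      exact ht (Fin.ext h1)
    · simp
  rw [Finset.sum_congr rfl (fun t _ => this t)]
  simp

variable {k : ℕ} (n : Fin k → ℕ) (N : Fin k → Fin k → ℕ)

/-- The vertex set: cell `c` has `n c` vertices. -/
abbrev VV : Type := Σ c : Fin k, Fin (n c)

/-- Adjacency. -/
def adj (u v : VV n) : Prop :=
  (u.1 < v.1 ∧ rel (n u.1) (n v.1) (N u.1 v.1) u.2 v.2) ∨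
    (v.1 < u.1 ∧ rel (n v.1) (n u.1) (N v.1 u.1) v.2 u.2)

instance : DecidableRel (adj n N) := by
  intro u v; unfold adj; infer_instance

/-- The graph. -/
def gr : SimpleGraph (VV n) where
  Adj := adj n N
  symm := ⟨by
    intro u v h
    exact h.symm⟩
  loopless := ⟨by
    intro u h
    rcases h with h | h
    · exact lt_irrefl _ h.1
    · exact lt_irrefl _ h.1⟩

instance : DecidableRel (gr n N).Adj := by
  intro u v
  exact inferInstanceAs (Decidable (adj n N u v))

theorem count (h0 : ∀ c, N c c = 0) (hle : ∀ c d, N c d ≤ n d)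
    (hs : ∀ c d, n c * N c d = n d * N d c) (c d : Fin k) (x : Fin (n c)) :
    ∑ y : Fin (n d), (if (gr n N).Adj ⟨c, x⟩ ⟨d, y⟩ then (1 : ℕ) else 0) = N c d := by
  rcases lt_trichotomy c d with h | h | h
  · rw [← rel_row (hle c d) x]
    refine Finset.sum_congr rfl fun y _ => ?_
    refine if_congr ?_ rfl rfl
    constructor
    · rintro (h1 | h1)
      · exact h1.2
      · exact absurd h1.1 (not_lt.2 h.le)
    · intro h1
      exact Or.inl ⟨h, h1⟩
  · subst h
    rw [h0 c, Finset.sum_eq_zero]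
    intro y _
    rw [if_neg]
    rintro (h1 | h1)
    · exact lt_irrefl _ h1.1
    · exact lt_irrefl _ h1.1
  · rw [← rel_col (hle d c) (hs d c) x]
    refine Finset.sum_congr rfl fun y _ => ?_
    refine if_congr ?_ rfl rfl
    constructor
    · rintro (h1 | h1)
      · exact absurd h1.1 (not_lt.2 h.le)
      · exact h1.2
    · intro h1
      exact Or.inr ⟨h, h1⟩

theorem mulVec_cell {R : Type} [CommRing R] (h0 : ∀ c, N c c = 0) (hle : ∀ c d, N c d ≤ n d)
    (hs : ∀ c d, n c * N c d = n d * N d c) (w : Fin k → R) :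
    ((gr n N).adjMatrix R).mulVec (fun v => w v.1) =
      fun v => ∑ d, (N v.1 d : R) * w d := by
  funext ⟨c, x⟩
  rw [Matrix.mulVec, dotProduct, Fintype.sum_sigma]
  refine Finset.sum_congr rfl fun d _ => ?_
  have h1 : ∀ y : Fin (n d), (gr n N).adjMatrix R ⟨c, x⟩ ⟨d, y⟩ * w (⟨d, y⟩ : VV n).1 =
      (((if (gr n N).Adj ⟨c, x⟩ ⟨d, y⟩ then (1 : ℕ) else 0 : ℕ)) : R) * w d := by
    intro y
    rw [SimpleGraph.adjMatrix_apply]
    push_cast
    rfl
  refine (Finset.sum_congr rfl fun y _ => h1 y).trans ?_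
  rw [← Finset.sum_mul, ← Nat.cast_sum, count n N h0 hle hs c d x]

end Pool.Agent.Q94.FRB
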