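import Pool.Agent.Q94.FRB.Data
import Pool.Agent.Q94.FRB.Defs

/-! Balanced fractional revival in the graph `G0`, between two vertices that are not cospectral. -/

set_option autoImplicit false

open Finset

namespace Pool.Agent.Q94.FRB

theorem proj_sum {E : Type} [NormedAddCommGroup E] [InnerProductSpace ℝ E]
    [FiniteDimensional ℝ E] (T : E →ₗ[ℝ] E) (hT : T.IsSymmetric) {ι : Type} [Fintype ι]
    [DecidableEq ι] (θ : ι → ℝ) (w : ι → E) (hw : ∀ j, T (w j) = θ j • w j) (j0 : ι)
    (hθ : ∀ j, j ≠ j0 → θ j ≠ θ j0) (g : ι → ℝ) :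
    (Module.End.eigenspace T (θ j0)).starProjection (∑ j, g j • w j) = g j0 • w j0 := by
  apply Submodule.eq_starProjection_of_mem_orthogonal
  · exact Submodule.smul_mem _ _ (Module.End.mem_eigenspace_iff.2 (hw j0))
  · rw [Submodule.mem_orthogonal]
    intro z hz
    rw [Module.End.mem_eigenspace_iff] at hz
    rw [← Finset.add_sum_erase _ _ (mem_univ j0), add_sub_cancel_left, inner_sum]
    refine Finset.sum_eq_zero fun j hj => ?_
    have hj' : j ≠ j0 := (Finset.mem_erase.1 hj).1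
    have h1 := hT z (w j)
    rw [hz, hw j, inner_smul_left, inner_smul_right] at h1
    have h2 : (θ j - θ j0) * inner ℝ z (w j) = 0 := by
      have h3 : (starRingEnd ℝ) (θ j0) = θ j0 := rfl
      rw [h3] at h1
      linear_combination -h1
    rw [inner_smul_right]
    rcases mul_eq_zero.1 h2 with h | h
    · exact absurd (sub_eq_zero.1 h) (hθ j hj')
    · rw [h, mul_zero]

/-- the two special vertices -/
def va : VV sz := ⟨0, (0 : Fin 1)⟩
def vb : VV sz := ⟨1, (0 : Fin 1)⟩

theorem va_ne_vb : va ≠ vb := by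
  intro h
  have := congrArg Sigma.fst h
  exact absurd this (by decide)

theorem single_va {R : Type} [Zero R] [One R] :
    (Pi.single va 1 : VV sz → R) = fun v => if v.1 = 0 then 1 else 0 := by
  funext ⟨c, x⟩
  by_cases h : c = 0
  · subst h
    have hx : (⟨0, x⟩ : VV sz) = va := by
      have : x = (0 : Fin 1) := Subsingleton.elim (α := Fin 1) _ _
      rw [this]; rfl
    rw [hx]
    simp [va]
  · rw [Pi.single_eq_of_ne, if_neg h]
    intro h1
    exact h (congrArg Sigma.fst h1)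

theorem single_vb {R : Type} [Zero R] [One R] :
    (Pi.single vb 1 : VV sz → R) = fun v => if v.1 = 1 then 1 else 0 := by
  funext ⟨c, x⟩
  by_cases h : c = 1
  · subst h
    have hx : (⟨1, x⟩ : VV sz) = vb := by
      have : x = (0 : Fin 1) := Subsingleton.elim (α := Fin 1) _ _
      rw [this]; rfl
    rw [hx]
    simp [vb]
  · rw [Pi.single_eq_of_ne, if_neg h]
    intro h1
    exact h (congrArg Sigma.fst h1)

/-- the sign `±√2` -/
noncomputable def sg (s : Bool) : ℝ := if s then √2 else -√2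

theorem sg_sq (s : Bool) : sg s ^ 2 = 2 := by
  unfold sg
  cases s <;> simp

/-- the sum over `i` of the weighted eigenvectors -/
theorem comb_vec {R : Type} [Field R] [CharZero R] (σ : R) (hσ : σ ^ 2 = 2) :
    ∑ i, cf σ i • (fun v : VV sz => ww σ i v.1) =
      (1 / 2 + σ / 4) • (Pi.single va 1 : VV sz → R) + (σ / 4) • (Pi.single vb 1 : VV sz → R) := by
  rw [single_va, single_vb]
  funext v
  simp only [Finset.sum_apply, Pi.smul_apply, Pi.add_apply, smul_eq_mul]
  rw [comb σ hσ v.1]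
  generalize v.1 = c
  by_cases h : c = 0
  · subst h; simp
  · by_cases h' : c = 1
    · subst h'; simp
    · simp [h, h']

/-- The eigenvectors in Euclidean space. -/
noncomputable def ew (j : Bool × Fin 3) : EuclideanSpace ℝ (VV sz) :=
  WithLp.toLp 2 (fun v => ww (sg j.1) j.2 v.1)

/-- The eigenvalues. -/
noncomputable def et (j : Bool × Fin 3) : ℝ := 36 + (vv j.2 : ℝ) * sg j.1

theorem ew_eig (j : Bool × Fin 3) :
    Matrix.toEuclideanLin (G0.adjMatrix ℝ) (ew j) = et j • ew j := by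
  unfold ew
  rw [Matrix.toEuclideanLin_apply]
  change WithLp.toLp 2 ((G0.adjMatrix ℝ).mulVec (fun v : VV sz => ww (sg j.1) j.2 v.1)) = _
  rw [eig _ (sg_sq _)]
  rfl

theorem symT : (Matrix.toEuclideanLin (G0.adjMatrix ℝ)).IsSymmetric := by
  rw [Matrix.isSymmetric_toEuclideanLin_iff]
  unfold Matrix.IsHermitian
  rw [Matrix.conjTranspose_eq_transpose_of_trivial, SimpleGraph.transpose_adjMatrix]

theorem et_ne (j : Bool × Fin 3) (h : j ≠ (true, 1)) : et j ≠ et (true, 1) := by
  have h0 : 0 < √2 := by positivity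
  obtain ⟨s, i⟩ := j
  unfold et
  cases s <;> fin_cases i <;> simp [sg, vv] at h ⊢ <;> (intro h1; linarith)

theorem sum_ew (g : Bool × Fin 3 → ℝ) (v : VV sz) :
    (∑ j : Bool × Fin 3, g j • ew j) v =
      ∑ s : Bool, ∑ i : Fin 3, g (s, i) * ww (sg s) i v.1 := by
  rw [← Fintype.sum_prod_type' (f := fun s i => g (s, i) * ww (sg s) i v.1)]
  rw [WithLp.ofLp_sum, Finset.sum_apply]
  rfl

theorem single_va_eq : (EuclideanSpace.single va 1 : EuclideanSpace ℝ (VV sz)) =
    ∑ j : Bool × Fin 3, cf (sg j.1) j.2 • ew j := by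
  ext v
  rw [sum_ew]
  have h := fun s => congrFun (comb_vec (sg s) (sg_sq s)) v
  simp only [Finset.sum_apply, Pi.smul_apply, Pi.add_apply, smul_eq_mul] at h
  rw [Finset.sum_congr rfl (fun s _ => h s), Fintype.sum_bool]
  change (Pi.single va 1 : VV sz → ℝ) v = _
  simp only [sg, if_true]
  simp
  ring

theorem single_vb_eq : (EuclideanSpace.single vb 1 : EuclideanSpace ℝ (VV sz)) =
    ∑ j : Bool × Fin 3, ((sg j.1 - 1) * cf (sg j.1) j.2) • ew j := by
  ext v
  rw [sum_ew]
  have h := fun s => congrFun (comb_vec (sg s) (sg_sq s)) v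
  simp only [Finset.sum_apply, Pi.smul_apply, Pi.add_apply, smul_eq_mul] at h
  have h' : ∀ s, ∑ i, (sg s - 1) * cf (sg s) i * ww (sg s) i v.1 =
      (sg s - 1) * ((1 / 2 + sg s / 4) * (Pi.single va 1 : VV sz → ℝ) v +
        sg s / 4 * (Pi.single vb 1 : VV sz → ℝ) v) := by
    intro s
    rw [← h s, Finset.mul_sum]
    exact Finset.sum_congr rfl fun i _ => by ring
  rw [Finset.sum_congr rfl (fun s _ => h' s), Fintype.sum_bool]
  change (Pi.single vb 1 : VV sz → ℝ) v = _
  have h2 : √2 * √2 = (2 : ℝ) := Real.mul_self_sqrt (by norm_num)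
  simp only [sg, if_true, Bool.false_eq_true, if_false]
  linear_combination (-(1 / 2 : ℝ) * ((Pi.single va 1 : VV sz → ℝ) v +
    (Pi.single vb 1 : VV sz → ℝ) v)) * h2

theorem not_cospectral : ¬ Cospectral G0 va vb := by
  intro h
  have h1 := h (et (true, 1))
  unfold specProj at h1
  rw [single_va_eq, single_vb_eq,
    proj_sum _ symT et ew ew_eig (true, 1) et_ne (fun j => cf (sg j.1) j.2),
    proj_sum _ symT et ew ew_eig (true, 1) et_ne (fun j => (sg j.1 - 1) * cf (sg j.1) j.2)] at h1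
  have h2 : cf (sg true) 1 * (ww (sg true) 1 0 : ℝ) =
      (sg true - 1) * cf (sg true) 1 * ww (sg true) 1 1 := h1
  have h3 : √2 * √2 = (2 : ℝ) := Real.mul_self_sqrt (by norm_num)
  have h4 : (1 : ℝ) < √2 := by
    rw [Real.lt_sqrt (by norm_num)]; norm_num
  have h5 : (cf (sg true) 1 : ℝ) ≠ 0 := by
    simp only [cf, sg, pA, pB, if_true, Matrix.cons_val_one, Matrix.cons_val_zero]
    push_cast
    positivity
  have h6 : (ww (sg true) 1 0 : ℝ) = (sg true - 1) * ww (sg true) 1 1 := by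
    apply mul_left_cancel₀ h5
    linear_combination h2
  simp [ww, sg, cA, cB] at h6
  nlinarith

theorem pow_mulVec_of_eigen {V : Type} [Fintype V] [DecidableEq V] (M : Matrix V V ℂ)
    (v : V → ℂ) (μ : ℂ) (h : M.mulVec v = μ • v) (n : ℕ) :
    (M ^ n).mulVec v = μ ^ n • v := by
  induction n with
  | zero => simp
  | succ n ih =>
    rw [pow_succ, ← Matrix.mulVec_mulVec, h, Matrix.mulVec_smul, ih, smul_smul, pow_succ]
    congr 1
    ring

theorem exp_mulVec_of_eigen {V : Type} [Fintype V] [DecidableEq V] (M : Matrix V V ℂ)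
    (v : V → ℂ) (μ : ℂ) (h : M.mulVec v = μ • v) :
    (NormedSpace.exp M).mulVec v = Complex.exp μ • v := by
  open scoped Matrix.Norms.Operator in
  have h1 : HasSum (fun n : ℕ => ((n.factorial : ℂ)⁻¹) • M ^ n) (NormedSpace.exp M) :=
    NormedSpace.exp_series_hasSum_exp' M
  have h2 : HasSum (fun n : ℕ => ((n.factorial : ℂ)⁻¹) • μ ^ n) (Complex.exp μ) := by
    have := NormedSpace.exp_series_hasSum_exp' (𝕂 := ℂ) μ
    rwa [← Complex.exp_eq_exp_ℂ] at this
  funext x
  have hx : ∀ N : Matrix V V ℂ, N.mulVec v x = ∑ y, N x y * v y := fun N => rfl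
  have h3 : HasSum (fun n : ℕ => (((n.factorial : ℂ)⁻¹) • M ^ n).mulVec v x)
      ((NormedSpace.exp M).mulVec v x) := by
    simp only [hx]
    refine hasSum_sum fun y _ => ?_
    refine HasSum.mul_right (v y) ?_
    have := h1.map (f := fun n : ℕ => ((n.factorial : ℂ)⁻¹) • M ^ n)
      (⟨⟨fun N : Matrix V V ℂ => N x y, rfl⟩, fun _ _ => rfl⟩ : Matrix V V ℂ →+ ℂ)
      (by exact (continuous_apply y).comp (continuous_apply x))
    exact this
  have h4 : HasSum (fun n : ℕ => (((n.factorial : ℂ)⁻¹) • M ^ n).mulVec v x)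
      ((Complex.exp μ • v) x) := by
    have h5 := h2.mul_right (v x)
    have h6 : (fun n : ℕ => (((n.factorial : ℂ)⁻¹) • M ^ n).mulVec v x) =
        fun n : ℕ => ((n.factorial : ℂ)⁻¹) • μ ^ n * v x := by
      funext n
      rw [Matrix.smul_mulVec, pow_mulVec_of_eigen M v μ h n]
      simp only [Pi.smul_apply, smul_eq_mul]
      ring
    rw [h6]
    exact h5
  exact h3.unique h4

/-- the time -/
noncomputable def tm : ℝ := Real.pi / (12 * √2)

theorem tm_pos : 0 < tm := by
  unfold tm; positivity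

theorem tm_sg (s : Bool) : tm * sg s = (if s then 1 else -1) * (Real.pi / 12) := by
  have h4 : (√2 : ℝ) ≠ 0 := by positivity
  unfold tm sg
  cases s
  · simp only [Bool.false_eq_true, if_false]
    field_simp
  · simp only [if_true]
    field_simp

theorem exp_vv (i : Fin 3) : Complex.exp ((vv i : ℂ) * (Real.pi / 12) * Complex.I) = Complex.I := by
  have h0 : Complex.exp ((Real.pi / 2 : ℂ) * Complex.I) = Complex.I := by
    rw [Complex.exp_mul_I, Complex.cos_pi_div_two, Complex.sin_pi_div_two]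
    simp
  have key : ∀ n : ℤ, (vv i : ℂ) * (Real.pi / 12) * Complex.I =
      (Real.pi / 2 : ℂ) * Complex.I + n * (2 * Real.pi * Complex.I) →
      Complex.exp ((vv i : ℂ) * (Real.pi / 12) * Complex.I) = Complex.I := by
    intro n hn
    rw [hn, Complex.exp_add, h0, Complex.exp_int_mul_two_pi_mul_I, mul_one]
  have v0 : vv 0 = -42 := rfl
  have v1 : vv 1 = 6 := rfl
  have v2 : vv 2 = 54 := rfl
  fin_cases i
  · apply key (-2)
    change ((vv 0 : ℤ) : ℂ) * _ * _ = _
    rw [v0]; push_cast; ring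
  · apply key 0
    change ((vv 1 : ℤ) : ℂ) * _ * _ = _
    rw [v1]; push_cast; ring
  · apply key 2
    change ((vv 2 : ℤ) : ℂ) * _ * _ = _
    rw [v2]; push_cast; ring

theorem phase (s : Bool) (i : Fin 3) :
    Complex.exp (Complex.I * (tm : ℂ) * (36 + (vv i : ℂ) * (sg s : ℂ))) =
      Complex.exp (36 * Complex.I * (tm : ℂ)) * ((if s then 1 else -1) * Complex.I) := by
  have h1 : (tm : ℂ) * (sg s : ℂ) = (if s then 1 else -1) * (Real.pi / 12) := by
    rw [← Complex.ofReal_mul, tm_sg]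
    cases s <;> simp
  have h2 : Complex.I * (tm : ℂ) * (36 + (vv i : ℂ) * (sg s : ℂ)) =
      36 * Complex.I * (tm : ℂ) + (if s then 1 else -1) * ((vv i : ℂ) * (Real.pi / 12) * Complex.I) := by
    linear_combination (Complex.I * (vv i : ℂ)) * h1
  rw [h2, Complex.exp_add]
  congr 1
  cases s
  · simp only [Bool.false_eq_true, if_false]
    rw [neg_one_mul, Complex.exp_neg, exp_vv]
    simp
  · simp only [if_true, one_mul]
    exact exp_vv i

theorem sgC (s : Bool) : (sg s : ℂ) ^ 2 = 2 := by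
  have := sg_sq s
  exact_mod_cast this

theorem walk_w (s : Bool) (i : Fin 3) :
    (NormedSpace.exp ((Complex.I * (tm : ℂ)) • G0.adjMatrix ℂ)).mulVec
      (fun v : VV sz => ww (sg s : ℂ) i v.1) =
    (Complex.exp (36 * Complex.I * (tm : ℂ)) * ((if s then 1 else -1) * Complex.I)) •
      (fun v : VV sz => ww (sg s : ℂ) i v.1) := by
  rw [← phase s i]
  apply exp_mulVec_of_eigen
  rw [Matrix.smul_mulVec, eig _ (sgC s) i, smul_smul]

theorem walk_u (s : Bool) :
    (NormedSpace.exp ((Complex.I * (tm : ℂ)) • G0.adjMatrix ℂ)).mulVec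
      ((1 / 2 + (sg s : ℂ) / 4) • (Pi.single va 1 : VV sz → ℂ) +
        ((sg s : ℂ) / 4) • (Pi.single vb 1 : VV sz → ℂ)) =
    (Complex.exp (36 * Complex.I * (tm : ℂ)) * ((if s then 1 else -1) * Complex.I)) •
      ((1 / 2 + (sg s : ℂ) / 4) • (Pi.single va 1 : VV sz → ℂ) +
        ((sg s : ℂ) / 4) • (Pi.single vb 1 : VV sz → ℂ)) := by
  rw [← comb_vec (sg s : ℂ) (sgC s)]
  have h := Matrix.mulVecLin_apply
    (NormedSpace.exp ((Complex.I * (tm : ℂ)) • G0.adjMatrix ℂ))
  rw [← h, map_sum, Finset.smul_sum]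
  refine Finset.sum_congr rfl fun i _ => ?_
  rw [map_smul, h, walk_w, smul_comm]

theorem walk_a :
    (NormedSpace.exp ((Complex.I * (tm : ℂ)) • G0.adjMatrix ℂ)).mulVec (Pi.single va 1) =
      (Complex.exp (36 * Complex.I * (tm : ℂ)) * Complex.I * (√2 / 2 : ℝ)) • Pi.single va 1 +
      (Complex.exp (36 * Complex.I * (tm : ℂ)) * Complex.I * (√2 / 2 : ℝ)) • Pi.single vb 1 := by
  have h1 : (Pi.single va 1 : VV sz → ℂ) =
      ((1 / 2 + (sg true : ℂ) / 4) • (Pi.single va 1 : VV sz → ℂ) +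
        ((sg true : ℂ) / 4) • (Pi.single vb 1 : VV sz → ℂ)) +
      ((1 / 2 + (sg false : ℂ) / 4) • (Pi.single va 1 : VV sz → ℂ) +
        ((sg false : ℂ) / 4) • (Pi.single vb 1 : VV sz → ℂ)) := by
    funext v
    simp only [sg, if_true, Bool.false_eq_true, if_false, Pi.add_apply, Pi.smul_apply, smul_eq_mul]
    push_cast
    ring
  conv_lhs => rw [h1]
  rw [Matrix.mulVec_add, walk_u, walk_u]
  funext v
  simp only [sg, if_true, Bool.false_eq_true, if_false, Pi.add_apply, Pi.smul_apply, smul_eq_mul]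
  push_cast
  ring

theorem norm_coef :
    ‖Complex.exp (36 * Complex.I * (tm : ℂ)) * Complex.I * ((√2 / 2 : ℝ) : ℂ)‖ = 1 / √2 := by
  have h1 : (36 * Complex.I * (tm : ℂ)) = ((36 * tm : ℝ) : ℂ) * Complex.I := by
    push_cast; ring
  rw [norm_mul, norm_mul, h1, Complex.norm_exp_ofReal_mul_I, Complex.norm_I, Complex.norm_real,
    one_mul, one_mul, Real.norm_of_nonneg (by positivity)]
  have h3 : √2 * √2 = (2 : ℝ) := Real.mul_self_sqrt (by norm_num)
  rw [div_eq_div_iff (by norm_num) (by positivity), h3]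
  norm_num

theorem balanced : BalancedFR G0 va vb tm :=
  ⟨_, _, norm_coef, norm_coef, walk_a⟩

end Pool.Agent.Q94.FRB
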